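import Pool.Agent.Helper70.MM.Goals

/-!
Project MM (MP_91ee6f_gt), packet DENS: the support of a maximising measure is relatively dense.
-/

open MeasureTheory Set Metric
open scoped ENNReal Topology
open Pool.Agent.Results.MP_91ee6f_gt

namespace Pool.Agent.Helper86.MM

lemma integrable_exp {n : ℕ} (w : Measure (En n)) [IsFiniteMeasure w] (x : En n) :
    Integrable (fun y => Real.exp (-dist x y)) w := by
  refine Integrable.of_bound (C := 1) (by fun_prop) (ae_of_all _ fun y => ?_)
  rw [Real.norm_eq_abs, abs_of_pos (Real.exp_pos _)]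
  exact Real.exp_le_one_iff.2 (by have := dist_nonneg (x := x) (y := y); linarith)

/-- The support is relatively dense. -/
theorem dens : Pool.Agent.Helper70.MM.DENS := by
  intro n N X w hw hX c hc1 hc2 δ C hcov hmeas hdiam
  have hsupp : w w.supportᶜ = 0 := Measure.measure_compl_support
  have hunion : w (⋃ i, C i) = 1 := by
    refine le_antisymm prob_le_one ?_
    have h1 : w univ ≤ w (⋃ i, C i) + w Xᶜ := by
      refine (measure_mono ?_).trans (measure_union_le _ _)
      intro x _
      by_cases hx : x ∈ X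
      · exact Or.inl (hcov hx)
      · exact Or.inr hx
    rw [hX, add_zero, measure_univ] at h1
    exact h1
  have hN : 0 < N := by
    rcases Nat.eq_zero_or_pos N with h | h
    · subst h
      simp at hunion
    · exact h
  have hN' : (0 : ℝ) < N := by exact_mod_cast hN
  -- a cell of measure at least `1 / N`
  obtain ⟨i, hi⟩ : ∃ i, (N : ℝ≥0∞)⁻¹ ≤ w (C i) := by
    by_contra hcon
    push Not at hcon
    have h1 : w (⋃ i, C i) ≤ ∑ i, w (C i) := measure_iUnion_fintype_le _ _
    have h2 : ∑ i, w (C i) < ∑ _i : Fin N, (N : ℝ≥0∞)⁻¹ := by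
      have : Nonempty (Fin N) := ⟨⟨0, hN⟩⟩
      refine ENNReal.sum_lt_sum_of_nonempty Finset.univ_nonempty fun i _ => hcon i
    rw [Finset.sum_const, Finset.card_univ, Fintype.card_fin, nsmul_eq_mul,
      ENNReal.mul_inv_cancel (by exact_mod_cast hN.ne') (ENNReal.natCast_ne_top N)] at h2
    rw [hunion] at h1
    exact absurd (lt_of_le_of_lt h1 h2) (lt_irrefl _)
  have hi' : (N : ℝ)⁻¹ ≤ w.real (C i) := by
    have := ENNReal.toReal_mono (measure_ne_top w (C i)) hi
    rwa [ENNReal.toReal_inv, ENNReal.toReal_natCast] at this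
  obtain ⟨x₀, hx₀C, hx₀s⟩ : (C i ∩ w.support).Nonempty := by
    rw [nonempty_iff_ne_empty]
    intro h
    have h1 : C i ⊆ w.supportᶜ := fun x hx hx' => by
      have : x ∈ C i ∩ w.support := ⟨hx, hx'⟩
      rw [h] at this
      exact this
    have h2 : w (C i) = 0 := measure_mono_null h1 hsupp
    rw [h2] at hi
    have : (N : ℝ≥0∞)⁻¹ = 0 := le_antisymm hi bot_le
    rw [ENNReal.inv_eq_zero] at this
    exact ENNReal.natCast_ne_top N this
  have hlow : Real.exp (-δ) / N ≤ c := by
    rw [← hc2 x₀ hx₀s]
    calc Real.exp (-δ) / N = Real.exp (-δ) * (N : ℝ)⁻¹ := div_eq_mul_inv _ _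
      _ ≤ Real.exp (-δ) * w.real (C i) := by gcongr
      _ = ∫ _y in C i, Real.exp (-δ) ∂w := by
        rw [setIntegral_const, smul_eq_mul, mul_comm]
      _ ≤ ∫ y in C i, Real.exp (-dist x₀ y) ∂w := by
        refine setIntegral_mono_on (integrableOn_const (measure_ne_top _ _))
          (integrable_exp w x₀).integrableOn (hmeas i) fun y hy => ?_
        have := hdiam i x₀ hx₀C y hy
        exact Real.exp_le_exp.2 (by linarith)
      _ ≤ ∫ y, Real.exp (-dist x₀ y) ∂w :=
        setIntegral_le_integral (integrable_exp w x₀) (ae_of_all _ fun y => (Real.exp_pos _).le)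
      _ = potential w x₀ := rfl
  refine ⟨hlow, fun x hx => ?_⟩
  obtain ⟨y, hy, hxy⟩ := Measure.isClosed_support.exists_infDist_eq_dist ⟨x₀, hx₀s⟩ x
  refine ⟨y, hy, ?_⟩
  have hup : potential w x ≤ Real.exp (-dist x y) := by
    calc potential w x = ∫ z, Real.exp (-dist x z) ∂w := rfl
      _ ≤ ∫ _z, Real.exp (-dist x y) ∂w := by
        refine integral_mono_ae (integrable_exp w x) (integrable_const _) ?_
        have hae : ∀ᵐ z ∂w, z ∈ w.support := Measure.support_mem_ae
        filter_upwards [hae] with z hz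
        have := infDist_le_dist_of_mem (x := x) hz
        exact Real.exp_le_exp.2 (by linarith)
      _ = Real.exp (-dist x y) := by simp
  have h3 : Real.exp (-δ) / N ≤ Real.exp (-dist x y) := hlow.trans ((hc1 x hx).trans hup)
  have h4 : Real.exp (-δ) / N = Real.exp (-δ - Real.log N) := by
    rw [Real.exp_sub, Real.exp_log hN']
  rw [h4, Real.exp_le_exp] at h3
  linarith

end Pool.Agent.Helper86.MM
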